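import Mathlib
import Pool.Agent.Helper86.CollatzInt
import Pool.Agent.Collatz3.DNSlow

set_option autoImplicit false

/-!
The sharp local 0-1 law for the `3x+1` map in short blocks.
-/

namespace Pool.Agent.LC86

open Filter Topology
open Pool.Agent.Helper14 (T)
open Pool.Agent.Helper86.CollatzInt
open Pool.Agent.Helper86.CollatzChain
open Pool.Agent.Helper86.CollatzRate
open Pool.Agent.Collatz3.DN (EvInv iter_mem)

open Classical in
/-- The number of `b = 1, …, H` such that `σ x` and `σ (x + b)` are not seen to merge after `k` steps. -/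
noncomputable def nm (σ : ℤ) (k H x : ℕ) : ℕ :=
  ((Finset.Icc 1 H).filter fun b : ℕ => w k (0, σ * (b : ℤ)) (σ * (x : ℤ)) ≠ 0).card

open Classical in
theorem count_b {σ : ℤ} (hσ : |σ| = 1) (k N : ℕ) (s : ℕ × ℤ) :
    (((Finset.range (N + 1)).filter fun x : ℕ => w k s (σ * (x : ℤ)) ≠ 0).card : ℝ) ≤
      (2 * N + 1 + 2 ^ k) * u k s := by
  have hσ0 : σ ≠ 0 := by
    rintro rfl
    simp at hσ
  refine le_trans ?_ (ncard_le k N s)
  have h3 : ((Finset.range (N + 1)).filter fun x : ℕ => w k s (σ * (x : ℤ)) ≠ 0).card ≤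
      Set.ncard {n : ℤ | |n| ≤ N ∧ w k s n ≠ 0} := by
    rw [← Set.ncard_coe_finset]
    apply Set.ncard_le_ncard_of_injOn (fun n : ℕ => σ * (n : ℤ)) (ht := finite_abs_le N _)
    · intro n hn
      rw [Finset.mem_coe, Finset.mem_filter, Finset.mem_range] at hn
      refine ⟨?_, hn.2⟩
      rw [abs_mul, hσ, one_mul, Nat.abs_cast]
      exact_mod_cast Nat.lt_succ_iff.1 hn.1
    · intro m _ n _ hmn
      have h3 : (m : ℤ) = n := mul_left_cancel₀ hσ0 hmn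
      exact_mod_cast h3
  exact_mod_cast h3

open Classical in
/-- Double counting. -/
theorem sum_nm_le : ∃ C : ℝ, 0 < C ∧ ∀ (σ : ℤ) (N H : ℕ), |σ| = 1 → 4 ≤ N → 1 ≤ H →
    (∑ x ∈ Finset.range (N + 1), (nm σ (Nat.log 2 N / 2) H x : ℝ)) ≤
      C * N * H * Real.sqrt ((1 + Real.log H) / Real.log N) := by
  obtain ⟨C, hC, hr⟩ := rate
  refine ⟨16 * C, by positivity, ?_⟩
  intro σ N H hσ hN hH
  obtain ⟨L, hL⟩ : ∃ L, L = Nat.log 2 N := ⟨_, rfl⟩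
  obtain ⟨k, hk⟩ : ∃ k, k = L / 2 := ⟨_, rfl⟩
  rw [← hL, ← hk]
  have hL2 : 2 ≤ L := by
    rw [hL]
    exact Nat.le_log_of_pow_le (by norm_num) (by norm_num; omega)
  have hk1 : 1 ≤ k := by omega
  have hLk : L ≤ 3 * k := by omega
  have hkN : 2 ^ k ≤ N :=
    (Nat.pow_le_pow_right (by norm_num) (show k ≤ L by omega)).trans
      (by rw [hL]; exact Nat.pow_log_le_self 2 (by omega))
  have hNlt : N < 2 ^ (L + 1) := by rw [hL]; exact Nat.lt_pow_succ_log_self (by norm_num) N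
  have hN1 : (1 : ℝ) < N := by exact_mod_cast (show 1 < N by omega)
  have hN0 : (0 : ℝ) < N := by linarith
  have hlogN : 0 < Real.log N := Real.log_pos hN1
  have hkpos : (0 : ℝ) < k := by exact_mod_cast hk1
  have hlogk : Real.log N ≤ 6 * k := by
    have h1 : Real.log N ≤ Real.log ((2 : ℝ) ^ (L + 1)) := by
      apply Real.log_le_log hN0
      exact_mod_cast hNlt.le
    rw [Real.log_pow] at h1
    have h2 : Real.log 2 ≤ 1 := by
      have := Real.log_two_lt_d9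
      linarith
    have h3 : ((L + 1 : ℕ) : ℝ) * Real.log 2 ≤ ((L + 1 : ℕ) : ℝ) * 1 :=
      mul_le_mul_of_nonneg_left h2 (by positivity)
    have h4 : (L : ℝ) ≤ 3 * k := by exact_mod_cast hLk
    have h5 : (2 : ℝ) ≤ L := by exact_mod_cast hL2
    push_cast at h1 h3
    linarith
  have hH1 : (1 : ℝ) ≤ H := by exact_mod_cast hH
  have hlogH : 0 ≤ Real.log H := Real.log_nonneg hH1
  have e1 : (∑ x ∈ Finset.range (N + 1), (nm σ k H x : ℝ)) =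
      ∑ b ∈ Finset.Icc 1 H, (((Finset.range (N + 1)).filter
        fun x : ℕ => w k (0, σ * (b : ℤ)) (σ * (x : ℤ)) ≠ 0).card : ℝ) := by
    have e2 : ∀ x : ℕ, (nm σ k H x : ℝ) = ∑ b ∈ Finset.Icc 1 H,
        if w k (0, σ * (b : ℤ)) (σ * (x : ℤ)) ≠ 0 then (1 : ℝ) else 0 := by
      intro x
      unfold nm
      rw [Finset.card_filter]
      push_cast
      rfl
    simp only [e2]
    rw [Finset.sum_comm]
    apply Finset.sum_congr rfl
    intro b _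
    rw [Finset.card_filter]
    push_cast
    rfl
  rw [e1]
  have e3 : ∀ b ∈ Finset.Icc 1 H, (((Finset.range (N + 1)).filter
      fun x : ℕ => w k (0, σ * (b : ℤ)) (σ * (x : ℤ)) ≠ 0).card : ℝ) ≤
      16 * C * N * Real.sqrt ((1 + Real.log H) / Real.log N) := by
    intro b hb
    rw [Finset.mem_Icc] at hb
    have h1 := count_b hσ k N (0, σ * (b : ℤ))
    have h2 := hr 0 (σ * (b : ℤ)) k hk1
    have h3 := u_nonneg k (0, σ * (b : ℤ))
    have h4 : ((2 : ℝ) * N + 1 + 2 ^ k) ≤ 4 * N := by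
      have : ((2 ^ k : ℕ) : ℝ) ≤ N := by exact_mod_cast hkN
      push_cast at this
      linarith
    have h5 : Real.sqrt ((1 + ((0 : ℕ) : ℝ) ^ 2 + Real.log (1 + |((σ * (b : ℤ) : ℤ) : ℝ)|)) / k) ≤
        4 * Real.sqrt ((1 + Real.log H) / Real.log N) := by
      have h6 : (4 : ℝ) * Real.sqrt ((1 + Real.log H) / Real.log N) =
          Real.sqrt (16 * ((1 + Real.log H) / Real.log N)) := by
        rw [Real.sqrt_mul (by norm_num)]
        have : Real.sqrt 16 = 4 := by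
          rw [show (16 : ℝ) = 4 ^ 2 by norm_num, Real.sqrt_sq (by norm_num)]
        rw [this]
      rw [h6]
      apply Real.sqrt_le_sqrt
      have hb1 : (b : ℝ) ≤ H := by exact_mod_cast hb.2
      have hb0 : (0 : ℝ) ≤ b := Nat.cast_nonneg b
      have h7 : |((σ * (b : ℤ) : ℤ) : ℝ)| = b := by
        rw [← Int.cast_abs, abs_mul, hσ, one_mul, Nat.abs_cast]
        simp
      have h8 : Real.log (1 + |((σ * (b : ℤ) : ℤ) : ℝ)|) ≤ Real.log 2 + Real.log H := by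
        rw [h7, ← Real.log_mul (by norm_num) (by positivity)]
        apply Real.log_le_log (by positivity)
        linarith
      have h9 : Real.log 2 ≤ 1 := by
        have := Real.log_two_lt_d9
        linarith
      have h10 : 1 + ((0 : ℕ) : ℝ) ^ 2 + Real.log (1 + |((σ * (b : ℤ) : ℤ) : ℝ)|) ≤
          2 * (1 + Real.log H) := by
        have : ((0 : ℕ) : ℝ) ^ 2 = 0 := by norm_num
        rw [this]
        linarith
      calc (1 + ((0 : ℕ) : ℝ) ^ 2 + Real.log (1 + |((σ * (b : ℤ) : ℤ) : ℝ)|)) / k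
          ≤ 2 * (1 + Real.log H) / k := div_le_div_of_nonneg_right h10 hkpos.le
        _ ≤ 16 * ((1 + Real.log H) / Real.log N) := by
            rw [mul_div_assoc', div_le_div_iff₀ hkpos hlogN]
            have h11 : 0 ≤ 1 + Real.log H := by linarith
            nlinarith [mul_le_mul_of_nonneg_left hlogk h11]
    calc (((Finset.range (N + 1)).filter
          fun x : ℕ => w k (0, σ * (b : ℤ)) (σ * (x : ℤ)) ≠ 0).card : ℝ)
        ≤ (2 * N + 1 + 2 ^ k) * u k (0, σ * (b : ℤ)) := h1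
      _ ≤ 4 * N * u k (0, σ * (b : ℤ)) := mul_le_mul_of_nonneg_right h4 h3
      _ ≤ 4 * N * (C * Real.sqrt ((1 + ((0 : ℕ) : ℝ) ^ 2 +
            Real.log (1 + |((σ * (b : ℤ) : ℤ) : ℝ)|)) / k)) :=
          mul_le_mul_of_nonneg_left h2 (by positivity)
      _ ≤ 4 * N * (C * (4 * Real.sqrt ((1 + Real.log H) / Real.log N))) := by
          apply mul_le_mul_of_nonneg_left _ (by positivity)
          exact mul_le_mul_of_nonneg_left h5 hC.le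
      _ = 16 * C * N * Real.sqrt ((1 + Real.log H) / Real.log N) := by ring
  refine (Finset.sum_le_sum e3).trans ?_
  rw [Finset.sum_const, Nat.card_Icc, nsmul_eq_mul, Nat.add_sub_cancel]
  apply le_of_eq
  ring

open Classical in
theorem markov : ∃ C : ℝ, 0 < C ∧ ∀ (σ : ℤ) (N H : ℕ) (δ : ℝ), |σ| = 1 → 4 ≤ N → 1 ≤ H → 0 < δ →
    (((Finset.range (N + 1)).filter
      fun x => δ * H < (nm σ (Nat.log 2 N / 2) H x : ℝ)).card : ℝ) ≤
      C / δ * N * Real.sqrt ((1 + Real.log H) / Real.log N) := by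
  obtain ⟨C, hC, hs⟩ := sum_nm_le
  refine ⟨C, hC, fun σ N H δ hσ hN hH hδ => ?_⟩
  have h1 := hs σ N H hσ hN hH
  have hH1 : (0 : ℝ) < H := by exact_mod_cast hH
  have h2 : (((Finset.range (N + 1)).filter
      fun x => δ * H < (nm σ (Nat.log 2 N / 2) H x : ℝ)).card : ℝ) * (δ * H) ≤
      ∑ x ∈ Finset.range (N + 1), (nm σ (Nat.log 2 N / 2) H x : ℝ) := by
    rw [← nsmul_eq_mul, ← Finset.sum_const]
    refine (Finset.sum_le_sum (g := fun x : ℕ => (nm σ (Nat.log 2 N / 2) H x : ℝ))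
      fun x hx => ?_).trans ?_
    · exact (Finset.mem_filter.1 hx).2.le
    · exact Finset.sum_le_sum_of_subset_of_nonneg (Finset.filter_subset _ _)
        fun x _ _ => Nat.cast_nonneg _
  have h3 : 0 < δ * H := by positivity
  have h4 := h2.trans h1
  rw [← le_div_iff₀ h3] at h4
  refine h4.trans (le_of_eq ?_)
  field_simp

open Classical in
/-- Blocks of length up to `X ^ θ`, `θ` small. -/
theorem block {ε : ℝ} (hε : 0 < ε) : ∃ θ₀ : ℝ, 0 < θ₀ ∧ θ₀ < 1 ∧ ∀ θ : ℝ, 0 < θ → θ ≤ θ₀ →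
    ∀ᶠ X : ℕ in atTop, ∀ σ : ℤ, |σ| = 1 →
      (((Finset.range (2 * X + 1)).filter fun x => ε * (⌊((2 * X : ℕ) : ℝ) ^ θ⌋₊ : ℝ) <
        (nm σ (Nat.log 2 (2 * X) / 2) ⌊((2 * X : ℕ) : ℝ) ^ θ⌋₊ x : ℝ)).card : ℝ) ≤ ε * X := by
  obtain ⟨C, hC, hl⟩ := markov
  obtain ⟨q, hq⟩ : ∃ q : ℝ, q = (ε ^ 2 / (2 * C)) ^ 2 := ⟨_, rfl⟩
  have hq0 : 0 < q := by rw [hq]; positivity
  refine ⟨min (1 / 2) (q / 2), by positivity, (min_le_left _ _).trans_lt (by norm_num), ?_⟩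
  intro θ hθ hθq
  have hθ2 : θ ≤ q / 2 := hθq.trans (min_le_right _ _)
  have hlog : Tendsto (fun X : ℕ => Real.log ((2 * X : ℕ) : ℝ)) atTop atTop :=
    Real.tendsto_log_atTop.comp (tendsto_natCast_atTop_atTop.comp
      (tendsto_id.const_mul_atTop' (by norm_num : 0 < 2)))
  filter_upwards [eventually_ge_atTop 2, hlog.eventually_ge_atTop (2 / q)] with X hX hL
  intro σ hσ
  obtain ⟨H, hH⟩ : ∃ H, H = ⌊((2 * X : ℕ) : ℝ) ^ θ⌋₊ := ⟨_, rfl⟩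
  rw [← hH]
  have hN1 : (1 : ℝ) < ((2 * X : ℕ) : ℝ) := by exact_mod_cast (show 1 < 2 * X by omega)
  have hN0 : (0 : ℝ) < ((2 * X : ℕ) : ℝ) := by linarith
  have hlogN : 0 < Real.log ((2 * X : ℕ) : ℝ) := Real.log_pos hN1
  have hpow : (1 : ℝ) ≤ ((2 * X : ℕ) : ℝ) ^ θ := Real.one_le_rpow hN1.le hθ.le
  have hH1 : 1 ≤ H := by
    rw [hH]
    exact Nat.le_floor (by exact_mod_cast hpow)
  have hHle : (H : ℝ) ≤ ((2 * X : ℕ) : ℝ) ^ θ := by
    rw [hH]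
    exact Nat.floor_le (by positivity)
  have hH0 : (0 : ℝ) < H := by exact_mod_cast hH1
  refine (hl σ (2 * X) H ε hσ (by omega) hH1 hε).trans ?_
  have h1 : Real.log H ≤ q / 2 * Real.log ((2 * X : ℕ) : ℝ) := by
    have h2 := Real.log_le_log hH0 hHle
    rw [Real.log_rpow hN0] at h2
    exact h2.trans (mul_le_mul_of_nonneg_right hθ2 hlogN.le)
  have h2 : 1 ≤ q / 2 * Real.log ((2 * X : ℕ) : ℝ) := by
    rw [div_le_iff₀ hq0] at hL
    linarith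
  have h3 : (1 + Real.log H) / Real.log ((2 * X : ℕ) : ℝ) ≤ (ε ^ 2 / (2 * C)) ^ 2 := by
    rw [div_le_iff₀ hlogN, ← hq]
    linarith
  have h4 : Real.sqrt ((1 + Real.log H) / Real.log ((2 * X : ℕ) : ℝ)) ≤ ε ^ 2 / (2 * C) := by
    rw [← Real.sqrt_sq (show (0 : ℝ) ≤ ε ^ 2 / (2 * C) by positivity)]
    exact Real.sqrt_le_sqrt h3
  calc C / ε * ((2 * X : ℕ) : ℝ) * Real.sqrt ((1 + Real.log H) / Real.log ((2 * X : ℕ) : ℝ))
      ≤ C / ε * ((2 * X : ℕ) : ℝ) * (ε ^ 2 / (2 * C)) :=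
        mul_le_mul_of_nonneg_left h4 (by positivity)
    _ = ε * X := by
        push_cast
        field_simp

open Classical in
/-- The bad integers of a block are counted by `nm`. -/
theorem win_le {σ : ℤ} {k H x : ℕ} {θ : ℝ} {P : ℕ → Prop}
    (hP : ∀ b : ℕ, w k (0, σ * (b : ℤ)) (σ * (x : ℤ)) = 0 → ¬ P (x + b))
    (hH : (x : ℝ) ^ θ < H + 1) :
    Set.ncard {n : ℕ | x < n ∧ (n : ℝ) ≤ x + (x : ℝ) ^ θ ∧ P n} ≤ nm σ k H x := by
  unfold nm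
  rw [← Set.ncard_coe_finset]
  apply Set.ncard_le_ncard_of_injOn (fun n : ℕ => n - x) (ht := Finset.finite_toSet _)
  · rintro n ⟨h1, h2, h3⟩
    rw [Finset.mem_coe, Finset.mem_filter, Finset.mem_Icc]
    have h4 : ((n - x : ℕ) : ℝ) = n - x := by
      rw [Nat.cast_sub h1.le]
    have h5 : ((n - x : ℕ) : ℝ) < (H : ℝ) + 1 := by
      rw [h4]
      linarith
    have h6 : n - x < H + 1 := by exact_mod_cast h5
    refine ⟨⟨by omega, by omega⟩, fun h7 => ?_⟩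
    apply hP (n - x) h7
    rwa [Nat.add_sub_cancel' h1.le]
  · rintro m ⟨hm, _⟩ n ⟨hn, _⟩ hmn
    simp only at hmn
    omega

/-- The general form of the block statement. -/
theorem gen {ε : ℝ} (hε : 0 < ε) : ∃ θ₀ : ℝ, 0 < θ₀ ∧ θ₀ < 1 ∧ ∀ θ : ℝ, 0 < θ → θ ≤ θ₀ →
    ∀ᶠ X : ℕ in atTop, ∀ σ : ℤ, |σ| = 1 → ∀ P : ℕ → ℕ → Prop,
      (∀ x b : ℕ, X ≤ x → w (Nat.log 2 (2 * X) / 2) (0, σ * (b : ℤ)) (σ * (x : ℤ)) = 0 →
        ¬ P x (x + b)) →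
      (Set.ncard {x : ℕ | X ≤ x ∧ x < 2 * X ∧ ε * (x : ℝ) ^ θ <
        (Set.ncard {n : ℕ | x < n ∧ (n : ℝ) ≤ x + (x : ℝ) ^ θ ∧ P x n} : ℝ)} : ℝ) ≤ ε * X := by
  classical
  obtain ⟨θ₀, h0, h1, hb⟩ := block (half_pos hε)
  refine ⟨θ₀, h0, h1, fun θ hθ hθ0 => ?_⟩
  filter_upwards [hb θ hθ hθ0, eventually_ge_atTop 1] with X hX hX1
  intro σ hσ P hP
  have h2 := hX σ hσ
  have h3 : Set.ncard {x : ℕ | X ≤ x ∧ x < 2 * X ∧ ε * (x : ℝ) ^ θ <
      (Set.ncard {n : ℕ | x < n ∧ (n : ℝ) ≤ x + (x : ℝ) ^ θ ∧ P x n} : ℝ)} ≤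
      ((Finset.range (2 * X + 1)).filter fun x => ε / 2 * (⌊((2 * X : ℕ) : ℝ) ^ θ⌋₊ : ℝ) <
        (nm σ (Nat.log 2 (2 * X) / 2) ⌊((2 * X : ℕ) : ℝ) ^ θ⌋₊ x : ℝ)).card := by
    rw [← Set.ncard_coe_finset]
    apply Set.ncard_le_ncard _ (Finset.finite_toSet _)
    rintro x ⟨hx1, hx2, hx3⟩
    rw [Finset.mem_coe, Finset.mem_filter, Finset.mem_range]
    refine ⟨by omega, ?_⟩
    have hx0 : (0 : ℝ) ≤ x := Nat.cast_nonneg x
    have e1 : (x : ℝ) ^ θ ≤ ((2 * X : ℕ) : ℝ) ^ θ := by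
      apply Real.rpow_le_rpow hx0 _ hθ.le
      exact_mod_cast hx2.le
    have e2 : (x : ℝ) ^ θ < (⌊((2 * X : ℕ) : ℝ) ^ θ⌋₊ : ℝ) + 1 :=
      lt_of_le_of_lt e1 (Nat.lt_floor_add_one _)
    have e3 := win_le (σ := σ) (k := Nat.log 2 (2 * X) / 2) (H := ⌊((2 * X : ℕ) : ℝ) ^ θ⌋₊)
      (x := x) (θ := θ) (P := P x) (fun b hb => hP x b hx1 hb) e2
    have e4 : (Set.ncard {n : ℕ | x < n ∧ (n : ℝ) ≤ x + (x : ℝ) ^ θ ∧ P x n} : ℝ) ≤
        (nm σ (Nat.log 2 (2 * X) / 2) ⌊((2 * X : ℕ) : ℝ) ^ θ⌋₊ x : ℝ) := by exact_mod_cast e3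
    refine lt_of_le_of_lt ?_ (hx3.trans_le e4)
    have e5 : (⌊((2 * X : ℕ) : ℝ) ^ θ⌋₊ : ℝ) ≤ ((2 * X : ℕ) : ℝ) ^ θ := Nat.floor_le (by positivity)
    have e6 : ((2 * X : ℕ) : ℝ) ^ θ ≤ 2 * (x : ℝ) ^ θ := by
      have e7 : ((2 * X : ℕ) : ℝ) ^ θ ≤ (2 * (x : ℝ)) ^ θ := by
        apply Real.rpow_le_rpow (by positivity) _ hθ.le
        push_cast
        have : (X : ℝ) ≤ x := by exact_mod_cast hx1
        linarith
      rw [Real.mul_rpow (by norm_num) hx0] at e7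
      refine e7.trans (mul_le_mul_of_nonneg_right ?_ (by positivity))
      calc (2 : ℝ) ^ θ ≤ (2 : ℝ) ^ (1 : ℝ) :=
            Real.rpow_le_rpow_of_exponent_le (by norm_num) (by linarith)
        _ = 2 := by norm_num
    nlinarith
  have h4 : (Set.ncard {x : ℕ | X ≤ x ∧ x < 2 * X ∧ ε * (x : ℝ) ^ θ <
      (Set.ncard {n : ℕ | x < n ∧ (n : ℝ) ≤ x + (x : ℝ) ^ θ ∧ P x n} : ℝ)} : ℝ) ≤
      (((Finset.range (2 * X + 1)).filter fun x => ε / 2 * (⌊((2 * X : ℕ) : ℝ) ^ θ⌋₊ : ℝ) <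
        (nm σ (Nat.log 2 (2 * X) / 2) ⌊((2 * X : ℕ) : ℝ) ^ θ⌋₊ x : ℝ)).card : ℝ) := by
    exact_mod_cast h3
  have h5 : (0 : ℝ) ≤ X := Nat.cast_nonneg X
  nlinarith

theorem merge_of_w {σ : ℤ} {k x b : ℕ} (h : w k (0, σ * (b : ℤ)) (σ * (x : ℤ)) = 0) :
    T^[k] (σ * (x : ℤ)) = T^[k] (σ * ((x + b : ℕ) : ℤ)) := by
  apply coalesce k 0 (σ * (b : ℤ)) (σ * (x : ℤ)) _ _ h
  push_cast
  ring

/-- The number of integers of the block `(x, x + x ^ θ]` which are not in the grand orbit of `x`. -/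
noncomputable def Apart (σ : ℤ) (θ : ℝ) (x : ℕ) : ℕ :=
  Set.ncard {n : ℕ | x < n ∧ (n : ℝ) ≤ x + (x : ℝ) ^ θ ∧
    ¬ ∃ k : ℕ, T^[k] (σ * (x : ℤ)) = T^[k] (σ * (n : ℤ))}

/-- The number of integers of the block on the other side of `A`. -/
noncomputable def Diff (σ : ℤ) (A : Set ℤ) (θ : ℝ) (x : ℕ) : ℕ :=
  Set.ncard {n : ℕ | x < n ∧ (n : ℝ) ≤ x + (x : ℝ) ^ θ ∧ ¬ (σ * (n : ℤ) ∈ A ↔ σ * (x : ℤ) ∈ A)}

theorem apart_small {ε : ℝ} (hε : 0 < ε) : ∃ θ₀ : ℝ, 0 < θ₀ ∧ θ₀ < 1 ∧ ∀ θ : ℝ, 0 < θ → θ ≤ θ₀ →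
    (∀ᶠ X : ℕ in atTop, ∀ σ : ℤ, |σ| = 1 →
      (Set.ncard {x : ℕ | X ≤ x ∧ x < 2 * X ∧ ε * (x : ℝ) ^ θ < (Apart σ θ x : ℝ)} : ℝ) ≤ ε * X) ∧
    (∀ (K : ℕ) (A : Set ℤ), EvInv K A → ∀ᶠ X : ℕ in atTop, ∀ σ : ℤ, |σ| = 1 →
      (Set.ncard {x : ℕ | X ≤ x ∧ x < 2 * X ∧ ε * (x : ℝ) ^ θ < (Diff σ A θ x : ℝ)} : ℝ) ≤
        ε * X) := by
  obtain ⟨θ₀, h0, h1, hg⟩ := gen hε
  refine ⟨θ₀, h0, h1, fun θ hθ hθ0 => ⟨?_, ?_⟩⟩
  · filter_upwards [hg θ hθ hθ0] with X hX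
    intro σ hσ
    apply hX σ hσ fun x n => ¬ ∃ k : ℕ, T^[k] (σ * (x : ℤ)) = T^[k] (σ * (n : ℤ))
    intro x b _ hw
    rw [not_not]
    exact ⟨_, merge_of_w hw⟩
  · intro K A hA
    filter_upwards [hg θ hθ hθ0, eventually_gt_atTop (2 * K ^ 2), eventually_ge_atTop 1]
      with X hX hK hX1
    intro σ hσ
    apply hX σ hσ fun x n => ¬ (σ * (n : ℤ) ∈ A ↔ σ * (x : ℤ) ∈ A)
    intro x b hx hw
    rw [not_not]
    obtain ⟨k, hk⟩ : ∃ k, k = Nat.log 2 (2 * X) / 2 := ⟨_, rfl⟩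
    rw [← hk] at hw
    have h2 : (2 ^ k) ^ 2 ≤ 2 * X := by
      rw [← pow_mul]
      refine (Nat.pow_le_pow_right (by norm_num) (show k * 2 ≤ Nat.log 2 (2 * X) by omega)).trans ?_
      exact Nat.pow_log_le_self 2 (by omega)
    have h3 : K * 2 ^ k < X := by
      by_contra h4
      push Not at h4
      have h5 : X ^ 2 ≤ (K * 2 ^ k) ^ 2 := Nat.pow_le_pow_left h4 2
      have h6 : (K * 2 ^ k) ^ 2 ≤ K ^ 2 * (2 * X) := by
        rw [mul_pow]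
        exact Nat.mul_le_mul_left _ h2
      have h7 : K ^ 2 * (2 * X) < X ^ 2 := by
        have h8 : K ^ 2 * (2 * X) = (2 * K ^ 2) * X := by ring
        rw [h8, sq X]
        exact Nat.mul_lt_mul_of_pos_right hK (by omega)
      omega
    have h4 : ∀ y : ℕ, X ≤ y → (K : ℤ) * 2 ^ k < |σ * (y : ℤ)| := by
      intro y hy
      rw [abs_mul, hσ, one_mul, Nat.abs_cast]
      exact_mod_cast lt_of_lt_of_le h3 hy
    rw [← iter_mem hA k _ (h4 (x + b) (by omega)), ← iter_mem hA k _ (h4 x hx), merge_of_w hw]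

end Pool.Agent.LC86
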