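import Mathlib
import Pool.Agent.LC86.Sharp

set_option autoImplicit false

/-!
The sharp local 0-1 law for sets with a density.
-/

namespace Pool.Agent.LC86

open Filter Topology
open Pool.Agent.Helper14 (T)
open Pool.Agent.Collatz3.DN (EvInv)

open Classical in
noncomputable def Cn (σ : ℤ) (A : Set ℤ) (N : ℕ) : ℕ :=
  ((Finset.range N).filter fun m : ℕ => σ * (m : ℤ) ∈ A).card

theorem ncard_le_real (σ : ℤ) (A : Set ℤ) (N : ℕ) :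
    Set.ncard {m : ℕ | (m : ℝ) ≤ (N : ℝ) ∧ σ * (m : ℤ) ∈ A} = Cn σ A (N + 1) := by
  classical
  unfold Cn
  rw [← Set.ncard_coe_finset]
  congr 1
  ext m
  simp only [Set.mem_ofPred_eq, Finset.coe_filter, Finset.mem_range, Nat.cast_le, Nat.lt_succ_iff]

theorem Cn_succ_le (σ : ℤ) (A : Set ℤ) (N : ℕ) : Cn σ A N ≤ Cn σ A (N + 1) ∧ Cn σ A (N + 1) ≤ Cn σ A N + 1 := by
  classical
  unfold Cn
  rw [Finset.range_add_one, Finset.filter_insert]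
  split_ifs
  · rw [Finset.card_insert_of_notMem (by simp)]
    omega
  · omega

/-- The `x` in `[X, 2X)` with `σ x ∈ A`. -/
theorem In_card (σ : ℤ) (A : Set ℤ) (X : ℕ) :
    Set.ncard {x : ℕ | X ≤ x ∧ x < 2 * X ∧ σ * (x : ℤ) ∈ A} + Cn σ A X = Cn σ A (2 * X) := by
  classical
  unfold Cn
  have e1 : {x : ℕ | X ≤ x ∧ x < 2 * X ∧ σ * (x : ℤ) ∈ A} =
      (((Finset.Ico X (2 * X)).filter fun m : ℕ => σ * (m : ℤ) ∈ A : Finset ℕ) : Set ℕ) := by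
    ext m
    simp only [Set.mem_ofPred_eq, Finset.coe_filter, Finset.mem_Ico, and_assoc]
  rw [e1, Set.ncard_coe_finset, add_comm, ← Finset.card_union_of_disjoint, ← Finset.filter_union]
  · congr 2
    ext m
    simp only [Finset.mem_union, Finset.mem_range, Finset.mem_Ico]
    omega
  · rw [Finset.disjoint_left]
    intro m h1 h2
    rw [Finset.mem_filter, Finset.mem_range] at h1
    rw [Finset.mem_filter, Finset.mem_Ico] at h2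
    omega

theorem In_dens {σ : ℤ} {A : Set ℤ} {d : ℝ}
    (hd : Tendsto (fun x : ℝ => (Set.ncard {m : ℕ | (m : ℝ) ≤ x ∧ σ * (m : ℤ) ∈ A} : ℝ) / x) atTop (𝓝 d))
    {ε : ℝ} (hε : 0 < ε) : ∀ᶠ X : ℕ in atTop,
      |(Set.ncard {x : ℕ | X ≤ x ∧ x < 2 * X ∧ σ * (x : ℤ) ∈ A} : ℝ) - d * X| ≤ ε * X := by
  have h1 : ∀ᶠ N : ℕ in atTop, |(Cn σ A (N + 1) : ℝ) - d * N| ≤ ε / 6 * N := by
    have h2 := (hd.comp tendsto_natCast_atTop_atTop).eventually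
      (Metric.closedBall_mem_nhds d (show 0 < ε / 6 by positivity))
    filter_upwards [h2, eventually_gt_atTop 0] with N hN hN0
    have hN1 : (0 : ℝ) < N := by exact_mod_cast hN0
    simp only [Function.comp] at hN
    rw [ncard_le_real, Real.dist_eq] at hN
    have h3 : (Cn σ A (N + 1) : ℝ) - d * N = ((Cn σ A (N + 1) : ℝ) / N - d) * N := by
      field_simp
    rw [h3, abs_mul, abs_of_pos hN1]
    exact mul_le_mul_of_nonneg_right hN hN1.le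
  have h2 : Tendsto (fun X : ℕ => 2 * X) atTop atTop := tendsto_id.const_mul_atTop' (by norm_num)
  filter_upwards [h1, h2.eventually h1,
    (tendsto_natCast_atTop_atTop (R := ℝ)).eventually_ge_atTop (4 / ε)] with X hX hX2 hX3
  have h3 := In_card σ A X
  have h4 := Cn_succ_le σ A X
  have h5 := Cn_succ_le σ A (2 * X)
  have h6 : (Set.ncard {x : ℕ | X ≤ x ∧ x < 2 * X ∧ σ * (x : ℤ) ∈ A} : ℝ) + Cn σ A X = Cn σ A (2 * X) := by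
    exact_mod_cast h3
  have g1 : (Cn σ A X : ℝ) ≤ Cn σ A (X + 1) := by exact_mod_cast h4.1
  have g2 : (Cn σ A (X + 1) : ℝ) ≤ Cn σ A X + 1 := by exact_mod_cast h4.2
  have g3 : (Cn σ A (2 * X) : ℝ) ≤ Cn σ A (2 * X + 1) := by exact_mod_cast h5.1
  have g4 : (Cn σ A (2 * X + 1) : ℝ) ≤ Cn σ A (2 * X) + 1 := by exact_mod_cast h5.2
  rw [div_le_iff₀ hε] at hX3
  rw [abs_le] at hX hX2 ⊢
  push_cast at hX2
  constructor <;> linarith [hX.1, hX.2, hX2.1, hX2.2]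

/-- The number of integers of the block `(x, x + x ^ θ]` with `σ n ∈ N`. -/
noncomputable def Num (σ : ℤ) (N : Set ℤ) (θ : ℝ) (x : ℕ) : ℕ :=
  Set.ncard {n : ℕ | x < n ∧ (n : ℝ) ≤ x + (x : ℝ) ^ θ ∧ σ * (n : ℤ) ∈ N}

theorem blk_finite (θ : ℝ) (x : ℕ) (P : ℕ → Prop) :
    {n : ℕ | x < n ∧ (n : ℝ) ≤ x + (x : ℝ) ^ θ ∧ P n}.Finite := by
  apply (Set.finite_Iic ⌊(x : ℝ) + (x : ℝ) ^ θ⌋₊).subset
  rintro n ⟨_, h, _⟩
  exact Nat.le_floor h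

/-- The whole block. -/
theorem blk_card (σ : ℤ) (A : Set ℤ) (θ : ℝ) (x : ℕ) :
    (x : ℝ) ^ θ - 1 ≤ (Num σ A θ x : ℝ) + Num σ Aᶜ θ x := by
  have h1 : ⌊(x : ℝ) ^ θ⌋₊ ≤ Num σ A θ x + Num σ Aᶜ θ x := by
    unfold Num
    have e1 : ((Finset.Ioc x (x + ⌊(x : ℝ) ^ θ⌋₊) : Finset ℕ) : Set ℕ) ⊆
        {n : ℕ | x < n ∧ (n : ℝ) ≤ x + (x : ℝ) ^ θ ∧ σ * (n : ℤ) ∈ A} ∪
        {n : ℕ | x < n ∧ (n : ℝ) ≤ x + (x : ℝ) ^ θ ∧ σ * (n : ℤ) ∈ Aᶜ} := by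
      intro n hn
      rw [Finset.mem_coe, Finset.mem_Ioc] at hn
      have h2 : (n : ℝ) ≤ x + (x : ℝ) ^ θ := by
        have h3 : (n : ℝ) ≤ ((x + ⌊(x : ℝ) ^ θ⌋₊ : ℕ) : ℝ) := by exact_mod_cast hn.2
        push_cast at h3
        have h4 : (⌊(x : ℝ) ^ θ⌋₊ : ℝ) ≤ (x : ℝ) ^ θ := Nat.floor_le (by positivity)
        linarith
      by_cases h : σ * (n : ℤ) ∈ A
      · exact Or.inl ⟨hn.1, h2, h⟩
      · exact Or.inr ⟨hn.1, h2, h⟩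
    have e2 := Set.ncard_le_ncard e1 ((blk_finite θ x _).union (blk_finite θ x _))
    rw [Set.ncard_coe_finset, Nat.card_Ioc, Nat.add_sub_cancel_left] at e2
    exact e2.trans (Set.ncard_union_le _ _)
  have h2 : (⌊(x : ℝ) ^ θ⌋₊ : ℝ) ≤ (Num σ A θ x : ℝ) + Num σ Aᶜ θ x := by exact_mod_cast h1
  have h3 := Nat.lt_floor_add_one ((x : ℝ) ^ θ)
  linarith

theorem num_le_diff {σ : ℤ} {A : Set ℤ} {θ : ℝ} {x : ℕ} (h : σ * (x : ℤ) ∈ A) :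
    Num σ Aᶜ θ x ≤ Diff σ A θ x := by
  apply Set.ncard_le_ncard _ (blk_finite θ x _)
  rintro n ⟨h1, h2, h3⟩
  exact ⟨h1, h2, fun h4 => h3 (h4.2 h)⟩

theorem num_le_diff' {σ : ℤ} {A : Set ℤ} {θ : ℝ} {x : ℕ} (h : σ * (x : ℤ) ∉ A) :
    Num σ A θ x ≤ Diff σ A θ x := by
  apply Set.ncard_le_ncard _ (blk_finite θ x _)
  rintro n ⟨h1, h2, h3⟩
  exact ⟨h1, h2, fun h4 => h (h4.1 h3)⟩

/-- **The sharp local 0-1 law.** -/
theorem sharp {ε η : ℝ} (hε : 0 < ε) (hη : 0 < η) (hη1 : η < 1) : ∃ θ₀ : ℝ, 0 < θ₀ ∧ θ₀ < 1 ∧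
    ∀ θ : ℝ, 0 < θ → θ ≤ θ₀ → ∀ σ : ℤ, |σ| = 1 →
      (∀ᶠ X : ℕ in atTop, (Set.ncard {x : ℕ | X ≤ x ∧ x < 2 * X ∧
        η * (x : ℝ) ^ θ < (Apart σ θ x : ℝ)} : ℝ) ≤ ε * X) ∧
      ∀ (K : ℕ) (A : Set ℤ) (d : ℝ), EvInv K A →
        Tendsto (fun x : ℝ => (Set.ncard {m : ℕ | (m : ℝ) ≤ x ∧ σ * (m : ℤ) ∈ A} : ℝ) / x) atTop (𝓝 d) →
        ∀ᶠ X : ℕ in atTop, |(Set.ncard {x : ℕ | X ≤ x ∧ x < 2 * X ∧
          (Num σ Aᶜ θ x : ℝ) ≤ η * (x : ℝ) ^ θ} : ℝ) - d * X| ≤ ε * X := by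
  obtain ⟨δ, hδ⟩ : ∃ δ : ℝ, δ = min (ε / 2) (min η ((1 - η) / 2)) := ⟨_, rfl⟩
  have hδ0 : 0 < δ := by
    rw [hδ]
    exact lt_min (by positivity) (lt_min hη (by linarith))
  have hδε : δ ≤ ε / 2 := by rw [hδ]; exact min_le_left _ _
  have hδη : δ ≤ η := by rw [hδ]; exact (min_le_right _ _).trans (min_le_left _ _)
  have hδη1 : δ ≤ (1 - η) / 2 := by rw [hδ]; exact (min_le_right _ _).trans (min_le_right _ _)
  obtain ⟨θ₀, h0, h1, hs⟩ := apart_small hδ0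
  refine ⟨θ₀, h0, h1, fun θ hθ hθ0 σ hσ => ⟨?_, ?_⟩⟩
  · filter_upwards [(hs θ hθ hθ0).1] with X hX
    have h2 := hX σ hσ
    have hX0 : (0 : ℝ) ≤ X := Nat.cast_nonneg X
    have h3 : Set.ncard {x : ℕ | X ≤ x ∧ x < 2 * X ∧ η * (x : ℝ) ^ θ < (Apart σ θ x : ℝ)} ≤
        Set.ncard {x : ℕ | X ≤ x ∧ x < 2 * X ∧ δ * (x : ℝ) ^ θ < (Apart σ θ x : ℝ)} := by
      apply Set.ncard_le_ncard _ ((Set.finite_Iio (2 * X)).subset fun x hx => hx.2.1)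
      rintro x ⟨hx1, hx2, hx3⟩
      refine ⟨hx1, hx2, lt_of_le_of_lt ?_ hx3⟩
      exact mul_le_mul_of_nonneg_right hδη (by positivity)
    have h4 : (Set.ncard {x : ℕ | X ≤ x ∧ x < 2 * X ∧ η * (x : ℝ) ^ θ < (Apart σ θ x : ℝ)} : ℝ) ≤
        (Set.ncard {x : ℕ | X ≤ x ∧ x < 2 * X ∧ δ * (x : ℝ) ^ θ < (Apart σ θ x : ℝ)} : ℝ) := by
      exact_mod_cast h3
    nlinarith
  · intro K A d hA hd
    have hpow : Tendsto (fun X : ℕ => (X : ℝ) ^ θ) atTop atTop :=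
      (tendsto_rpow_atTop hθ).comp tendsto_natCast_atTop_atTop
    filter_upwards [(hs θ hθ hθ0).2 K A hA, In_dens hd (half_pos hε),
      hpow.eventually_gt_atTop (2 / (1 - η)), eventually_ge_atTop 1] with X hX hI hp hX1
    have hX0 : (0 : ℝ) ≤ X := Nat.cast_nonneg X
    have h2 := hX σ hσ
    have hfin : ∀ P : ℕ → Prop, {x : ℕ | X ≤ x ∧ x < 2 * X ∧ P x}.Finite := fun P =>
      (Set.finite_Iio (2 * X)).subset fun x hx => hx.2.1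
    -- in the set, up to the exceptional places
    have h3 : Set.ncard {x : ℕ | X ≤ x ∧ x < 2 * X ∧ σ * (x : ℤ) ∈ A} ≤
        Set.ncard {x : ℕ | X ≤ x ∧ x < 2 * X ∧ (Num σ Aᶜ θ x : ℝ) ≤ η * (x : ℝ) ^ θ} +
        Set.ncard {x : ℕ | X ≤ x ∧ x < 2 * X ∧ δ * (x : ℝ) ^ θ < (Diff σ A θ x : ℝ)} := by
      refine (Set.ncard_le_ncard ?_ ((hfin _).union (hfin _))).trans (Set.ncard_union_le _ _)
      rintro x ⟨hx1, hx2, hx3⟩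
      by_cases hc : δ * (x : ℝ) ^ θ < (Diff σ A θ x : ℝ)
      · exact Or.inr ⟨hx1, hx2, hc⟩
      · refine Or.inl ⟨hx1, hx2, ?_⟩
        have e1 : (Num σ Aᶜ θ x : ℝ) ≤ Diff σ A θ x := by exact_mod_cast num_le_diff hx3
        refine e1.trans ((not_lt.1 hc).trans ?_)
        exact mul_le_mul_of_nonneg_right hδη (by positivity)
    have h4 : Set.ncard {x : ℕ | X ≤ x ∧ x < 2 * X ∧ (Num σ Aᶜ θ x : ℝ) ≤ η * (x : ℝ) ^ θ} ≤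
        Set.ncard {x : ℕ | X ≤ x ∧ x < 2 * X ∧ σ * (x : ℤ) ∈ A} +
        Set.ncard {x : ℕ | X ≤ x ∧ x < 2 * X ∧ δ * (x : ℝ) ^ θ < (Diff σ A θ x : ℝ)} := by
      refine (Set.ncard_le_ncard ?_ ((hfin _).union (hfin _))).trans (Set.ncard_union_le _ _)
      rintro x ⟨hx1, hx2, hx3⟩
      by_cases hin : σ * (x : ℤ) ∈ A
      · exact Or.inl ⟨hx1, hx2, hin⟩
      · refine Or.inr ⟨hx1, hx2, ?_⟩
        by_contra hc
        have e1 : (Num σ A θ x : ℝ) ≤ Diff σ A θ x := by exact_mod_cast num_le_diff' hin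
        have e2 := blk_card σ A θ x
        have e3 : (X : ℝ) ^ θ ≤ (x : ℝ) ^ θ :=
          Real.rpow_le_rpow hX0 (by exact_mod_cast hx1) hθ.le
        have e4 : 2 / (1 - η) < (x : ℝ) ^ θ := lt_of_lt_of_le hp e3
        rw [div_lt_iff₀ (by linarith)] at e4
        have e5 : (0 : ℝ) ≤ (x : ℝ) ^ θ := by positivity
        have e6 := mul_le_mul_of_nonneg_right hδη1 e5
        rw [not_lt] at hc
        linarith
    have h5 : (Set.ncard {x : ℕ | X ≤ x ∧ x < 2 * X ∧ σ * (x : ℤ) ∈ A} : ℝ) ≤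
        (Set.ncard {x : ℕ | X ≤ x ∧ x < 2 * X ∧ (Num σ Aᶜ θ x : ℝ) ≤ η * (x : ℝ) ^ θ} : ℝ) +
        (Set.ncard {x : ℕ | X ≤ x ∧ x < 2 * X ∧ δ * (x : ℝ) ^ θ < (Diff σ A θ x : ℝ)} : ℝ) := by
      exact_mod_cast h3
    have h6 : (Set.ncard {x : ℕ | X ≤ x ∧ x < 2 * X ∧ (Num σ Aᶜ θ x : ℝ) ≤ η * (x : ℝ) ^ θ} : ℝ) ≤
        (Set.ncard {x : ℕ | X ≤ x ∧ x < 2 * X ∧ σ * (x : ℤ) ∈ A} : ℝ) +
        (Set.ncard {x : ℕ | X ≤ x ∧ x < 2 * X ∧ δ * (x : ℝ) ^ θ < (Diff σ A θ x : ℝ)} : ℝ) := by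
      exact_mod_cast h4
    have h7 : δ * X ≤ ε / 2 * X := mul_le_mul_of_nonneg_right hδε hX0
    rw [abs_le] at hI ⊢
    constructor <;> linarith [hI.1, hI.2]

end Pool.Agent.LC86
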