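import Mathlib
import Pool.Agent.LC86.Sharp
import Pool.Agent.LC86.Dens

set_option autoImplicit false

/-!
The sharp local 0-1 law, uniformly in all block lengths up to `X ^ θ₀`.
-/

namespace Pool.Agent.LC86

open Filter Topology
open Pool.Agent.Helper14 (T)
open Pool.Agent.Helper86.CollatzInt
open Pool.Agent.Helper86.CollatzChain
open Pool.Agent.Helper86.CollatzRate
open Pool.Agent.Collatz3.DN (EvInv iter_mem)

open Classical in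
/-- All block lengths up to `X ^ θ₀`. -/
theorem blockH {ε : ℝ} (hε : 0 < ε) : ∃ θ₀ : ℝ, 0 < θ₀ ∧ θ₀ < 1 ∧
    ∀ᶠ X : ℕ in atTop, ∀ σ : ℤ, |σ| = 1 → ∀ h : ℕ, 1 ≤ h → (h : ℝ) ≤ (X : ℝ) ^ θ₀ →
      (((Finset.range (2 * X + 1)).filter fun x => ε * (h : ℝ) <
        (nm σ (Nat.log 2 (2 * X) / 2) h x : ℝ)).card : ℝ) ≤ ε * X := by
  obtain ⟨C, hC, hl⟩ := markov
  obtain ⟨q, hq⟩ : ∃ q : ℝ, q = (ε ^ 2 / (2 * C)) ^ 2 := ⟨_, rfl⟩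
  have hq0 : 0 < q := by rw [hq]; positivity
  obtain ⟨θ, hθe⟩ : ∃ θ : ℝ, θ = min (1 / 2) (q / 2) := ⟨_, rfl⟩
  have hθ : 0 < θ := by rw [hθe]; positivity
  have hθ2 : θ ≤ q / 2 := by rw [hθe]; exact min_le_right _ _
  refine ⟨θ, hθ, by rw [hθe]; exact (min_le_left _ _).trans_lt (by norm_num), ?_⟩
  have hlog : Tendsto (fun X : ℕ => Real.log ((2 * X : ℕ) : ℝ)) atTop atTop :=
    Real.tendsto_log_atTop.comp (tendsto_natCast_atTop_atTop.comp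
      (tendsto_id.const_mul_atTop' (by norm_num : 0 < 2)))
  filter_upwards [eventually_ge_atTop 2, hlog.eventually_ge_atTop (2 / q)] with X hX hL
  intro σ hσ h hh hhX
  have hN1 : (1 : ℝ) < ((2 * X : ℕ) : ℝ) := by exact_mod_cast (show 1 < 2 * X by omega)
  have hN0 : (0 : ℝ) < ((2 * X : ℕ) : ℝ) := by linarith
  have hX0 : (0 : ℝ) ≤ X := Nat.cast_nonneg X
  have hlogN : 0 < Real.log ((2 * X : ℕ) : ℝ) := Real.log_pos hN1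
  have hHle : (h : ℝ) ≤ ((2 * X : ℕ) : ℝ) ^ θ := by
    refine hhX.trans (Real.rpow_le_rpow hX0 ?_ hθ.le)
    push_cast
    linarith
  have hH0 : (0 : ℝ) < h := by exact_mod_cast hh
  refine (hl σ (2 * X) h ε hσ (by omega) hh hε).trans ?_
  have h1 : Real.log h ≤ q / 2 * Real.log ((2 * X : ℕ) : ℝ) := by
    have h2 := Real.log_le_log hH0 hHle
    rw [Real.log_rpow hN0] at h2
    exact h2.trans (mul_le_mul_of_nonneg_right hθ2 hlogN.le)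
  have h2 : 1 ≤ q / 2 * Real.log ((2 * X : ℕ) : ℝ) := by
    rw [div_le_iff₀ hq0] at hL
    linarith
  have h3 : (1 + Real.log h) / Real.log ((2 * X : ℕ) : ℝ) ≤ (ε ^ 2 / (2 * C)) ^ 2 := by
    rw [div_le_iff₀ hlogN, ← hq]
    linarith
  have h4 : Real.sqrt ((1 + Real.log h) / Real.log ((2 * X : ℕ) : ℝ)) ≤ ε ^ 2 / (2 * C) := by
    rw [← Real.sqrt_sq (show (0 : ℝ) ≤ ε ^ 2 / (2 * C) by positivity)]
    exact Real.sqrt_le_sqrt h3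
  calc C / ε * ((2 * X : ℕ) : ℝ) * Real.sqrt ((1 + Real.log h) / Real.log ((2 * X : ℕ) : ℝ))
      ≤ C / ε * ((2 * X : ℕ) : ℝ) * (ε ^ 2 / (2 * C)) :=
        mul_le_mul_of_nonneg_left h4 (by positivity)
    _ = ε * X := by
        push_cast
        field_simp

open Classical in
theorem win_leH {σ : ℤ} {k h x : ℕ} {P : ℕ → Prop}
    (hP : ∀ b : ℕ, w k (0, σ * (b : ℤ)) (σ * (x : ℤ)) = 0 → ¬ P (x + b)) :
    Set.ncard {n : ℕ | x < n ∧ n ≤ x + h ∧ P n} ≤ nm σ k h x := by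
  unfold nm
  rw [← Set.ncard_coe_finset]
  apply Set.ncard_le_ncard_of_injOn (fun n : ℕ => n - x) (ht := Finset.finite_toSet _)
  · rintro n ⟨h1, h2, h3⟩
    rw [Finset.mem_coe, Finset.mem_filter, Finset.mem_Icc]
    refine ⟨⟨by omega, by omega⟩, fun h7 => ?_⟩
    apply hP (n - x) h7
    rwa [Nat.add_sub_cancel' h1.le]
  · rintro m ⟨hm, _⟩ n ⟨hn, _⟩ hmn
    simp only at hmn
    omega

theorem genH {ε : ℝ} (hε : 0 < ε) : ∃ θ₀ : ℝ, 0 < θ₀ ∧ θ₀ < 1 ∧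
    ∀ᶠ X : ℕ in atTop, ∀ σ : ℤ, |σ| = 1 → ∀ P : ℕ → ℕ → Prop,
      (∀ x b : ℕ, X ≤ x → w (Nat.log 2 (2 * X) / 2) (0, σ * (b : ℤ)) (σ * (x : ℤ)) = 0 →
        ¬ P x (x + b)) → ∀ h : ℕ, 1 ≤ h → (h : ℝ) ≤ (X : ℝ) ^ θ₀ →
      (Set.ncard {x : ℕ | X ≤ x ∧ x < 2 * X ∧ ε * (h : ℝ) <
        (Set.ncard {n : ℕ | x < n ∧ n ≤ x + h ∧ P x n} : ℝ)} : ℝ) ≤ ε * X := by
  classical
  obtain ⟨θ₀, h0, h1, hb⟩ := blockH hε
  refine ⟨θ₀, h0, h1, ?_⟩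
  filter_upwards [hb] with X hX
  intro σ hσ P hP h hh hhX
  refine le_trans ?_ (hX σ hσ h hh hhX)
  have h3 : Set.ncard {x : ℕ | X ≤ x ∧ x < 2 * X ∧ ε * (h : ℝ) <
      (Set.ncard {n : ℕ | x < n ∧ n ≤ x + h ∧ P x n} : ℝ)} ≤
      ((Finset.range (2 * X + 1)).filter fun x => ε * (h : ℝ) <
        (nm σ (Nat.log 2 (2 * X) / 2) h x : ℝ)).card := by
    rw [← Set.ncard_coe_finset]
    apply Set.ncard_le_ncard _ (Finset.finite_toSet _)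
    rintro x ⟨hx1, hx2, hx3⟩
    rw [Finset.mem_coe, Finset.mem_filter, Finset.mem_range]
    refine ⟨by omega, lt_of_lt_of_le hx3 ?_⟩
    exact_mod_cast win_leH (σ := σ) (k := Nat.log 2 (2 * X) / 2) (h := h)
      (x := x) (P := P x) (fun b hb => hP x b hx1 hb)
  exact_mod_cast h3

/-- The number of `n ∈ (x, x + h]` such that `σ n` does not merge with `σ x`. -/
noncomputable def ApartH (σ : ℤ) (h x : ℕ) : ℕ :=
  Set.ncard {n : ℕ | x < n ∧ n ≤ x + h ∧ ¬ ∃ k : ℕ, T^[k] (σ * (x : ℤ)) = T^[k] (σ * (n : ℤ))}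

/-- The number of `n ∈ (x, x + h]` on the other side of `A`. -/
noncomputable def DiffH (σ : ℤ) (A : Set ℤ) (h x : ℕ) : ℕ :=
  Set.ncard {n : ℕ | x < n ∧ n ≤ x + h ∧ ¬ (σ * (n : ℤ) ∈ A ↔ σ * (x : ℤ) ∈ A)}

/-- The number of `n ∈ (x, x + h]` with `σ n ∈ N`. -/
noncomputable def NumH (σ : ℤ) (N : Set ℤ) (h x : ℕ) : ℕ :=
  Set.ncard {n : ℕ | x < n ∧ n ≤ x + h ∧ σ * (n : ℤ) ∈ N}

theorem apart_smallH {ε : ℝ} (hε : 0 < ε) : ∃ θ₀ : ℝ, 0 < θ₀ ∧ θ₀ < 1 ∧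
    (∀ᶠ X : ℕ in atTop, ∀ σ : ℤ, |σ| = 1 → ∀ h : ℕ, 1 ≤ h → (h : ℝ) ≤ (X : ℝ) ^ θ₀ →
      (Set.ncard {x : ℕ | X ≤ x ∧ x < 2 * X ∧ ε * (h : ℝ) < (ApartH σ h x : ℝ)} : ℝ) ≤ ε * X) ∧
    (∀ (K : ℕ) (A : Set ℤ), EvInv K A → ∀ᶠ X : ℕ in atTop, ∀ σ : ℤ, |σ| = 1 →
      ∀ h : ℕ, 1 ≤ h → (h : ℝ) ≤ (X : ℝ) ^ θ₀ →
      (Set.ncard {x : ℕ | X ≤ x ∧ x < 2 * X ∧ ε * (h : ℝ) < (DiffH σ A h x : ℝ)} : ℝ) ≤
        ε * X) := by
  obtain ⟨θ₀, h0, h1, hg⟩ := genH hε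
  refine ⟨θ₀, h0, h1, ?_, ?_⟩
  · filter_upwards [hg] with X hX
    intro σ hσ
    apply hX σ hσ fun x n => ¬ ∃ k : ℕ, T^[k] (σ * (x : ℤ)) = T^[k] (σ * (n : ℤ))
    intro x b _ hw
    rw [not_not]
    exact ⟨_, merge_of_w hw⟩
  · intro K A hA
    filter_upwards [hg, eventually_gt_atTop (2 * K ^ 2), eventually_ge_atTop 1]
      with X hX hK hX1
    intro σ hσ
    apply hX σ hσ fun x n => ¬ (σ * (n : ℤ) ∈ A ↔ σ * (x : ℤ) ∈ A)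
    intro x b hx hw
    rw [not_not]
    obtain ⟨k, hk⟩ : ∃ k, k = Nat.log 2 (2 * X) / 2 := ⟨_, rfl⟩
    rw [← hk] at hw
    have h2 : (2 ^ k) ^ 2 ≤ 2 * X := by
      rw [← pow_mul]
      refine (Nat.pow_le_pow_right (by norm_num) (show k * 2 ≤ Nat.log 2 (2 * X) by omega)).trans ?_
      exact Nat.pow_log_le_self 2 (by omega)
    have h3 : K * 2 ^ k < X := by
      by_contra h4
      push Not at h4
      have h5 : X ^ 2 ≤ (K * 2 ^ k) ^ 2 := Nat.pow_le_pow_left h4 2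
      have h6 : (K * 2 ^ k) ^ 2 ≤ K ^ 2 * (2 * X) := by
        rw [mul_pow]
        exact Nat.mul_le_mul_left _ h2
      have h7 : K ^ 2 * (2 * X) < X ^ 2 := by
        have h8 : K ^ 2 * (2 * X) = (2 * K ^ 2) * X := by ring
        rw [h8, sq X]
        exact Nat.mul_lt_mul_of_pos_right hK (by omega)
      omega
    have h4 : ∀ y : ℕ, X ≤ y → (K : ℤ) * 2 ^ k < |σ * (y : ℤ)| := by
      intro y hy
      rw [abs_mul, hσ, one_mul, Nat.abs_cast]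
      exact_mod_cast lt_of_lt_of_le h3 hy
    rw [← iter_mem hA k _ (h4 (x + b) (by omega)), ← iter_mem hA k _ (h4 x hx), merge_of_w hw]

theorem blkH_finite (h x : ℕ) (P : ℕ → Prop) : {n : ℕ | x < n ∧ n ≤ x + h ∧ P n}.Finite :=
  (Set.finite_Iic (x + h)).subset fun n hn => hn.2.1

/-- The whole block. -/
theorem blkH_card (σ : ℤ) (A : Set ℤ) (h x : ℕ) : h ≤ NumH σ A h x + NumH σ Aᶜ h x := by
  unfold NumH
  have e1 : ((Finset.Ioc x (x + h) : Finset ℕ) : Set ℕ) ⊆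
      {n : ℕ | x < n ∧ n ≤ x + h ∧ σ * (n : ℤ) ∈ A} ∪
      {n : ℕ | x < n ∧ n ≤ x + h ∧ σ * (n : ℤ) ∈ Aᶜ} := by
    intro n hn
    rw [Finset.mem_coe, Finset.mem_Ioc] at hn
    by_cases hc : σ * (n : ℤ) ∈ A
    · exact Or.inl ⟨hn.1, hn.2, hc⟩
    · exact Or.inr ⟨hn.1, hn.2, hc⟩
  have e2 := Set.ncard_le_ncard e1 ((blkH_finite h x _).union (blkH_finite h x _))
  rw [Set.ncard_coe_finset, Nat.card_Ioc, Nat.add_sub_cancel_left] at e2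
  exact e2.trans (Set.ncard_union_le _ _)

theorem numH_le_diff {σ : ℤ} {A : Set ℤ} {h x : ℕ} (hx : σ * (x : ℤ) ∈ A) :
    NumH σ Aᶜ h x ≤ DiffH σ A h x := by
  apply Set.ncard_le_ncard _ (blkH_finite h x _)
  rintro n ⟨h1, h2, h3⟩
  exact ⟨h1, h2, fun h4 => h3 (h4.2 hx)⟩

theorem numH_le_diff' {σ : ℤ} {A : Set ℤ} {h x : ℕ} (hx : σ * (x : ℤ) ∉ A) :
    NumH σ A h x ≤ DiffH σ A h x := by
  apply Set.ncard_le_ncard _ (blkH_finite h x _)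
  rintro n ⟨h1, h2, h3⟩
  exact ⟨h1, h2, fun h4 => hx (h4.1 h3)⟩

/-- **The sharp local 0-1 law, uniform in the block length.** -/
theorem sharpH {ε η : ℝ} (hε : 0 < ε) (hη : 0 < η) (hη1 : η < 1) : ∃ θ₀ : ℝ, 0 < θ₀ ∧ θ₀ < 1 ∧
    ∀ σ : ℤ, |σ| = 1 →
      (∀ᶠ X : ℕ in atTop, ∀ h : ℕ, 1 ≤ h → (h : ℝ) ≤ (X : ℝ) ^ θ₀ →
        (Set.ncard {x : ℕ | X ≤ x ∧ x < 2 * X ∧ η * (h : ℝ) < (ApartH σ h x : ℝ)} : ℝ) ≤ ε * X) ∧
      ∀ (K : ℕ) (A : Set ℤ) (d : ℝ), EvInv K A →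
        Tendsto (fun x : ℝ => (Set.ncard {m : ℕ | (m : ℝ) ≤ x ∧ σ * (m : ℤ) ∈ A} : ℝ) / x) atTop (𝓝 d) →
        ∀ᶠ X : ℕ in atTop, ∀ h : ℕ, 1 ≤ h → (h : ℝ) ≤ (X : ℝ) ^ θ₀ →
          |(Set.ncard {x : ℕ | X ≤ x ∧ x < 2 * X ∧
            (NumH σ Aᶜ h x : ℝ) ≤ η * (h : ℝ)} : ℝ) - d * X| ≤ ε * X := by
  obtain ⟨δ, hδ⟩ : ∃ δ : ℝ, δ = min (ε / 2) (min η ((1 - η) / 2)) := ⟨_, rfl⟩
  have hδ0 : 0 < δ := by
    rw [hδ]
    exact lt_min (by positivity) (lt_min hη (by linarith))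
  have hδε : δ ≤ ε / 2 := by rw [hδ]; exact min_le_left _ _
  have hδη : δ ≤ η := by rw [hδ]; exact (min_le_right _ _).trans (min_le_left _ _)
  have hδη1 : δ ≤ (1 - η) / 2 := by rw [hδ]; exact (min_le_right _ _).trans (min_le_right _ _)
  obtain ⟨θ₀, h0, h1, hs1, hs2⟩ := apart_smallH hδ0
  refine ⟨θ₀, h0, h1, fun σ hσ => ⟨?_, ?_⟩⟩
  · filter_upwards [hs1] with X hX
    intro h hh hhX
    have h2 := hX σ hσ h hh hhX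
    have hX0 : (0 : ℝ) ≤ X := Nat.cast_nonneg X
    have h3 : Set.ncard {x : ℕ | X ≤ x ∧ x < 2 * X ∧ η * (h : ℝ) < (ApartH σ h x : ℝ)} ≤
        Set.ncard {x : ℕ | X ≤ x ∧ x < 2 * X ∧ δ * (h : ℝ) < (ApartH σ h x : ℝ)} := by
      apply Set.ncard_le_ncard _ ((Set.finite_Iio (2 * X)).subset fun x hx => hx.2.1)
      rintro x ⟨hx1, hx2, hx3⟩
      refine ⟨hx1, hx2, lt_of_le_of_lt ?_ hx3⟩
      exact mul_le_mul_of_nonneg_right hδη (by positivity)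
    have h4 : (Set.ncard {x : ℕ | X ≤ x ∧ x < 2 * X ∧ η * (h : ℝ) < (ApartH σ h x : ℝ)} : ℝ) ≤
        (Set.ncard {x : ℕ | X ≤ x ∧ x < 2 * X ∧ δ * (h : ℝ) < (ApartH σ h x : ℝ)} : ℝ) := by
      exact_mod_cast h3
    nlinarith
  · intro K A d hA hd
    filter_upwards [hs2 K A hA, In_dens hd (half_pos hε), eventually_ge_atTop 1] with X hX hI hX1
    intro h hh hhX
    have hX0 : (0 : ℝ) ≤ X := Nat.cast_nonneg X
    have hh0 : (0 : ℝ) < h := by exact_mod_cast hh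
    have h2 := hX σ hσ h hh hhX
    have hfin : ∀ P : ℕ → Prop, {x : ℕ | X ≤ x ∧ x < 2 * X ∧ P x}.Finite := fun P =>
      (Set.finite_Iio (2 * X)).subset fun x hx => hx.2.1
    have h3 : Set.ncard {x : ℕ | X ≤ x ∧ x < 2 * X ∧ σ * (x : ℤ) ∈ A} ≤
        Set.ncard {x : ℕ | X ≤ x ∧ x < 2 * X ∧ (NumH σ Aᶜ h x : ℝ) ≤ η * (h : ℝ)} +
        Set.ncard {x : ℕ | X ≤ x ∧ x < 2 * X ∧ δ * (h : ℝ) < (DiffH σ A h x : ℝ)} := by
      refine (Set.ncard_le_ncard ?_ ((hfin _).union (hfin _))).trans (Set.ncard_union_le _ _)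
      rintro x ⟨hx1, hx2, hx3⟩
      by_cases hc : δ * (h : ℝ) < (DiffH σ A h x : ℝ)
      · exact Or.inr ⟨hx1, hx2, hc⟩
      · refine Or.inl ⟨hx1, hx2, ?_⟩
        have e1 : (NumH σ Aᶜ h x : ℝ) ≤ DiffH σ A h x := by exact_mod_cast numH_le_diff hx3
        refine e1.trans ((not_lt.1 hc).trans ?_)
        exact mul_le_mul_of_nonneg_right hδη hh0.le
    have h4 : Set.ncard {x : ℕ | X ≤ x ∧ x < 2 * X ∧ (NumH σ Aᶜ h x : ℝ) ≤ η * (h : ℝ)} ≤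
        Set.ncard {x : ℕ | X ≤ x ∧ x < 2 * X ∧ σ * (x : ℤ) ∈ A} +
        Set.ncard {x : ℕ | X ≤ x ∧ x < 2 * X ∧ δ * (h : ℝ) < (DiffH σ A h x : ℝ)} := by
      refine (Set.ncard_le_ncard ?_ ((hfin _).union (hfin _))).trans (Set.ncard_union_le _ _)
      rintro x ⟨hx1, hx2, hx3⟩
      by_cases hin : σ * (x : ℤ) ∈ A
      · exact Or.inl ⟨hx1, hx2, hin⟩
      · refine Or.inr ⟨hx1, hx2, ?_⟩
        by_contra hc
        have e1 : (NumH σ A h x : ℝ) ≤ DiffH σ A h x := by exact_mod_cast numH_le_diff' hin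
        have e2 : (h : ℝ) ≤ (NumH σ A h x : ℝ) + NumH σ Aᶜ h x := by
          exact_mod_cast blkH_card σ A h x
        have e6 := mul_le_mul_of_nonneg_right hδη1 hh0.le
        rw [not_lt] at hc
        nlinarith
    have h5 : (Set.ncard {x : ℕ | X ≤ x ∧ x < 2 * X ∧ σ * (x : ℤ) ∈ A} : ℝ) ≤
        (Set.ncard {x : ℕ | X ≤ x ∧ x < 2 * X ∧ (NumH σ Aᶜ h x : ℝ) ≤ η * (h : ℝ)} : ℝ) +
        (Set.ncard {x : ℕ | X ≤ x ∧ x < 2 * X ∧ δ * (h : ℝ) < (DiffH σ A h x : ℝ)} : ℝ) := by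
      exact_mod_cast h3
    have h6 : (Set.ncard {x : ℕ | X ≤ x ∧ x < 2 * X ∧ (NumH σ Aᶜ h x : ℝ) ≤ η * (h : ℝ)} : ℝ) ≤
        (Set.ncard {x : ℕ | X ≤ x ∧ x < 2 * X ∧ σ * (x : ℤ) ∈ A} : ℝ) +
        (Set.ncard {x : ℕ | X ≤ x ∧ x < 2 * X ∧ δ * (h : ℝ) < (DiffH σ A h x : ℝ)} : ℝ) := by
      exact_mod_cast h4
    have h7 : δ * X ≤ ε / 2 * X := mul_le_mul_of_nonneg_right hδε hX0
    rw [abs_le] at hI ⊢
    constructor <;> linarith [hI.1, hI.2]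

end Pool.Agent.LC86
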