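import Mathlib
import Pool.Agent.LC86.Unif

set_option autoImplicit false

/-!
The quantitative form: few integers of most blocks do not merge with the left end.
-/

namespace Pool.Agent.LC86

open Filter Topology
open Pool.Agent.Helper14 (T)
open Pool.Agent.Helper86.CollatzChain

/-- **Rate.** At most `C X (h / m) √((1 + log h) / log X)` of the `x` in `[X, 2X)` have `m` or more integers in
`(x, x + h]` which do not merge with `x`. -/
theorem apart_rate : ∃ C : ℝ, 0 < C ∧ ∀ (σ : ℤ) (X h m : ℕ), |σ| = 1 → 2 ≤ X → 1 ≤ h → 1 ≤ m →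
    (Set.ncard {x : ℕ | X ≤ x ∧ x < 2 * X ∧ m ≤ ApartH σ h x} : ℝ) ≤
      C * X * ((h : ℝ) / m) * Real.sqrt ((1 + Real.log h) / Real.log X) := by
  classical
  obtain ⟨C, hC, hm⟩ := markov
  refine ⟨4 * C, by positivity, fun σ X h m hσ hX hh hm1 => ?_⟩
  have hX1 : (1 : ℝ) < X := by exact_mod_cast (show 1 < X by omega)
  have hX0 : (0 : ℝ) < X := by linarith
  have hlog : 0 < Real.log X := Real.log_pos hX1
  have hm0 : (0 : ℝ) < m := by exact_mod_cast hm1
  have hh0 : (0 : ℝ) < h := by exact_mod_cast hh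
  have hh1 : (1 : ℝ) ≤ h := by exact_mod_cast hh
  have hlogh : 0 ≤ Real.log h := Real.log_nonneg hh1
  have h1 := hm σ (2 * X) h ((m : ℝ) / (2 * h)) hσ (by omega) hh (by positivity)
  have h2 : Set.ncard {x : ℕ | X ≤ x ∧ x < 2 * X ∧ m ≤ ApartH σ h x} ≤
      ((Finset.range (2 * X + 1)).filter
      fun x => (m : ℝ) / (2 * h) * h < (nm σ (Nat.log 2 (2 * X) / 2) h x : ℝ)).card := by
    rw [← Set.ncard_coe_finset]
    apply Set.ncard_le_ncard _ (Finset.finite_toSet _)
    rintro x ⟨_, hx2, hx3⟩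
    rw [Finset.mem_coe, Finset.mem_filter, Finset.mem_range]
    refine ⟨by omega, ?_⟩
    have e0 : ApartH σ h x ≤ nm σ (Nat.log 2 (2 * X) / 2) h x := by
      apply win_leH (P := fun n => ¬ ∃ k : ℕ, T^[k] (σ * (x : ℤ)) = T^[k] (σ * (n : ℤ)))
      intro b hb
      rw [not_not]
      exact ⟨_, merge_of_w hb⟩
    have e1 : (m : ℝ) / (2 * h) * h = m / 2 := by field_simp
    have e2 : (m : ℝ) ≤ (nm σ (Nat.log 2 (2 * X) / 2) h x : ℝ) := by exact_mod_cast hx3.trans e0
    rw [e1]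
    linarith
  have h3 : (Set.ncard {x : ℕ | X ≤ x ∧ x < 2 * X ∧ m ≤ ApartH σ h x} : ℝ) ≤
      C / ((m : ℝ) / (2 * h)) * ((2 * X : ℕ) : ℝ) *
        Real.sqrt ((1 + Real.log h) / Real.log ((2 * X : ℕ) : ℝ)) := by
    refine le_trans ?_ h1
    exact_mod_cast h2
  refine h3.trans ?_
  have h4 : Real.sqrt ((1 + Real.log h) / Real.log ((2 * X : ℕ) : ℝ)) ≤
      Real.sqrt ((1 + Real.log h) / Real.log X) := by
    apply Real.sqrt_le_sqrt
    apply div_le_div_of_nonneg_left (by linarith) hlog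
    apply Real.log_le_log hX0
    push_cast
    linarith
  calc C / ((m : ℝ) / (2 * h)) * ((2 * X : ℕ) : ℝ) *
        Real.sqrt ((1 + Real.log h) / Real.log ((2 * X : ℕ) : ℝ))
      ≤ C / ((m : ℝ) / (2 * h)) * ((2 * X : ℕ) : ℝ) *
        Real.sqrt ((1 + Real.log h) / Real.log X) :=
        mul_le_mul_of_nonneg_left h4 (by positivity)
    _ = 4 * C * X * ((h : ℝ) / m) * Real.sqrt ((1 + Real.log h) / Real.log X) := by
        push_cast
        field_simp
        ring

end Pool.Agent.LC86
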